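import Pool.Agent.Helper63_CIT.Main

/-!
Interval colouring thickness of graphs with a cyclic interval colouring.
-/

namespace Pool.Agent.Results.MP_654d6e_co.CyclicThicknessBound

open Pool.Agent.CIT

/-- Let the finite simple graph `G` of maximum degree `Δ` have a cyclic interval `t`-colouring
and let `k ≥ 2`. If `t ≤ k (t - Δ + 1) + 1`, then the edge set of `G` can be
partitioned into `k` classes each of which forms an interval colourable graph. -/
theorem result {V : Type*} [Fintype V] [DecidableEq V] (G : SimpleGraph V) [DecidableRel G.Adj]
    (t k : ℕ) (α : Sym2 V → ℕ) (hα : IsCyclicIntervalColoring G t α) (hk : 2 ≤ k)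
    (ht : t ≤ k * (t + 1 - G.maxDegree) + 1) : ThicknessLE G k :=
  thicknessLE_cyclic G t k α hα hk (Or.inr ht)

end Pool.Agent.Results.MP_654d6e_co.CyclicThicknessBound
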